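import Mathlib

/-!
# MP_77b5a8_co: the equality `√12 n = F(s_n)` holds for no positive integer `n`

`s_n` is the least side of a square which contains `n` nonoverlapping unit discs. If
`2 ≤ s < s_n`, the rows of the hexagonal lattice parallel to a side give more than
`(s - 2) ^ 2 / √12` nonoverlapping unit discs in a square of side `s`, hence
`(s - 2) ^ 2 < √12 (n - 1)`, and for `s → s_n` we get `(s_n - 2) ^ 2 + √12 ≤ √12 n`, while
`F(s) = (s - 2) (s - 1 - √3) ≤ (s - 2) ^ 2` for `s ≥ 2`.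
-/

set_option autoImplicit false

open Metric Set

namespace Pool.Agent.Results.MP_77b5a8_co.NoEqualityH72

/-- The Euclidean plane. -/
abbrev Plane : Type := EuclideanSpace ℝ (Fin 2)

/-- The square `[0, s] × [0, s]`. -/
def stdSquare (s : ℝ) : Set Plane := {x | ∀ k, 0 ≤ x k ∧ x k ≤ s}

/-- `Q` is a square of side `s` (in any position): the image of `[0, s] × [0, s]` under an isometry
of the plane. -/
def IsSquareOfSide (s : ℝ) (Q : Set Plane) : Prop := ∃ f : Plane ≃ᵢ Plane, Q = f '' stdSquare s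

/-- Some square of side `s ≥ 0` contains `n` closed unit discs whose interiors are pairwise
disjoint. -/
def Fits (n : ℕ) (s : ℝ) : Prop :=
  0 ≤ s ∧ ∃ Q : Set Plane, IsSquareOfSide s Q ∧ ∃ c : Fin n → Plane,
    (∀ i, closedBall (c i) 1 ⊆ Q) ∧
    ∀ i j, i ≠ j → Disjoint (interior (closedBall (c i) 1)) (interior (closedBall (c j) 1))

/-- `s_n`: the minimal side of a square which contains `n` nonoverlapping unit discs. -/
noncomputable def side (n : ℕ) : ℝ := sInf {s | Fits n s}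

/-- `F(s) = s² - (3 + √3) s + 2 + 2 √3`. -/
noncomputable def F (s : ℝ) : ℝ := s ^ 2 - (3 + √3) * s + 2 + 2 * √3

/-- the condition on the centres -/
def Good (n : ℕ) (s : ℝ) (c : Fin n → Plane) : Prop :=
  (∀ i k, 1 ≤ c i k ∧ c i k ≤ s - 1) ∧ ∀ i j, i ≠ j → 2 ≤ dist (c i) (c j)

theorem disj_iff (x y : Plane) :
    Disjoint (interior (closedBall x 1)) (interior (closedBall y 1)) ↔ 2 ≤ dist x y := by
  rw [interior_closedBall x one_ne_zero, interior_closedBall y one_ne_zero,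
    disjoint_ball_ball_iff one_pos one_pos]
  norm_num

theorem coord_of_sub {x : Plane} {s : ℝ} (h : closedBall x 1 ⊆ stdSquare s) (k : Fin 2) :
    1 ≤ x k ∧ x k ≤ s - 1 := by
  have h1 : x - EuclideanSpace.single k (1 : ℝ) ∈ closedBall x 1 := by
    rw [mem_closedBall, dist_eq_norm]
    simp
  have h2 : x + EuclideanSpace.single k (1 : ℝ) ∈ closedBall x 1 := by
    rw [mem_closedBall, dist_eq_norm]
    simp
  have h3 := (h h1 k).1
  have h4 := (h h2 k).2
  simp at h3 h4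
  constructor <;> linarith

theorem sub_of_coord {x : Plane} {s : ℝ} (h : ∀ k, 1 ≤ x k ∧ x k ≤ s - 1) :
    closedBall x 1 ⊆ stdSquare s := by
  intro y hy k
  rw [mem_closedBall, dist_eq_norm] at hy
  have h1 : |y k - x k| ≤ 1 := by
    have := (PiLp.norm_apply_le (y - x) k).trans hy
    simpa using this
  rw [abs_le] at h1
  obtain ⟨h2, h3⟩ := h k
  constructor <;> linarith [h1.1, h1.2]

theorem fits_iff (n : ℕ) (s : ℝ) : Fits n s ↔ 0 ≤ s ∧ ∃ c : Fin n → Plane, Good n s c := by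
  constructor
  · rintro ⟨hs, Q, ⟨f, rfl⟩, c, h1, h2⟩
    refine ⟨hs, fun i => f.symm (c i), fun i k => coord_of_sub ?_ k, fun i j hij => ?_⟩
    · intro y hy
      have h3 : f y ∈ closedBall (c i) 1 := by
        rw [mem_closedBall] at hy ⊢
        rw [← f.symm.dist_eq]
        simpa using hy
      obtain ⟨z, hz, hzy⟩ := h1 i h3
      rwa [← f.injective hzy]
    · rw [f.symm.dist_eq, ← disj_iff]
      exact h2 i j hij
  · rintro ⟨hs, c, h1, h2⟩
    refine ⟨hs, stdSquare s, ⟨IsometryEquiv.refl _, (Set.image_id _).symm⟩, c, fun i => sub_of_coord (h1 i),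
      fun i j hij => ?_⟩
    rw [disj_iff]
    exact h2 i j hij

theorem fits_mono_n {m n : ℕ} (h : n ≤ m) {s : ℝ} (hf : Fits m s) : Fits n s := by
  rw [fits_iff] at hf ⊢
  obtain ⟨hs, c, h1, h2⟩ := hf
  refine ⟨hs, fun i => c (Fin.castLE h i), fun i k => h1 _ k, fun i j hij => h2 _ _ ?_⟩
  intro h3
  exact hij (Fin.castLE_injective h h3)

/-! ### the hexagonal rows -/

/-- number of discs in row `k` if `m = ⌊s - 2⌋` -/
def rowCount (m k : ℕ) : ℕ := if k % 2 = 0 then m / 2 + 1 else (m + 1) / 2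

theorem row_pair (m k : ℕ) : rowCount m k + rowCount m (k + 1) = m + 1 := by
  unfold rowCount
  rcases Nat.mod_two_eq_zero_or_one k with h | h
  · have h1 : (k + 1) % 2 ≠ 0 := by omega
    rw [if_pos h, if_neg h1]
    omega
  · have h1 : (k + 1) % 2 = 0 := by omega
    have h2 : k % 2 ≠ 0 := by omega
    rw [if_neg h2, if_pos h1]
    omega

theorem sum_rows (m : ℕ) : ∀ l : ℕ,
    (l + 1) * (m + 1) ≤ 2 * ∑ k ∈ Finset.range (l + 1), rowCount m k ∧
    (l + 2) * (m + 1) ≤ 2 * ∑ k ∈ Finset.range (l + 2), rowCount m k := by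
  intro l
  induction l with
  | zero =>
    constructor
    · simp [rowCount]; omega
    · have := row_pair m 0
      simp [Finset.sum_range_succ] at this ⊢
      omega
  | succ l ih =>
    refine ⟨ih.2, ?_⟩
    have e1 : ∑ k ∈ Finset.range (l + 1 + 2), rowCount m k =
        ∑ k ∈ Finset.range (l + 1), rowCount m k + rowCount m (l + 1) + rowCount m (l + 1 + 1) := by
      rw [Finset.sum_range_succ, Finset.sum_range_succ]
    have e2 := row_pair m (l + 1)
    have e3 : (l + 1 + 2) * (m + 1) = (l + 1) * (m + 1) + 2 * (m + 1) := by ring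
    have e4 := ih.1
    rw [e1, e3]
    generalize (l + 1) * (m + 1) = a at *
    omega

/-- the centre with number `i` in row `k` -/
noncomputable def pt (k i : ℕ) : Plane := !₂[1 + ((2 * i + k % 2 : ℕ) : ℝ), 1 + √3 * k]

theorem dist_pt {k i k' i' : ℕ} (h : (k, i) ≠ (k', i')) : 2 ≤ dist (pt k i) (pt k' i') := by
  have h3 : √3 ^ 2 = 3 := Real.sq_sqrt (by norm_num)
  have key : (4 : ℤ) ≤ ((2 * i + k % 2 : ℕ) - (2 * i' + k' % 2 : ℕ) : ℤ) ^ 2 +
      3 * ((k : ℤ) - k') ^ 2 := by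
    rcases lt_trichotomy k k' with hk | hk | hk
    · by_cases h1 : k' = k + 1
      · have h2 : ((2 * i + k % 2 : ℕ) - (2 * i' + k' % 2 : ℕ) : ℤ) ≠ 0 := by
          push_cast
          omega
        have h4 : (1 : ℤ) ≤ ((2 * i + k % 2 : ℕ) - (2 * i' + k' % 2 : ℕ) : ℤ) ^ 2 := by
          have := sq_pos_of_ne_zero h2
          omega
        have h5 : ((k : ℤ) - k') = -1 := by omega
        rw [h5]
        omega
      · have h5 : ((k : ℤ) - k') ≤ -2 := by omega
        nlinarith [sq_nonneg ((2 * i + k % 2 : ℕ) - (2 * i' + k' % 2 : ℕ) : ℤ)]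
    · subst hk
      have h1 : i ≠ i' := fun h1 => h (by rw [h1])
      have h2 : ((2 * i + k % 2 : ℕ) - (2 * i' + k % 2 : ℕ) : ℤ) = 2 * ((i : ℤ) - i') := by
        push_cast
        ring
      rw [h2]
      have h4 : ((i : ℤ) - i') ≠ 0 := by omega
      have := sq_pos_of_ne_zero h4
      nlinarith
    · by_cases h1 : k = k' + 1
      · have h2 : ((2 * i + k % 2 : ℕ) - (2 * i' + k' % 2 : ℕ) : ℤ) ≠ 0 := by
          push_cast
          omega
        have h4 : (1 : ℤ) ≤ ((2 * i + k % 2 : ℕ) - (2 * i' + k' % 2 : ℕ) : ℤ) ^ 2 := by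
          have := sq_pos_of_ne_zero h2
          omega
        have h5 : ((k : ℤ) - k') = 1 := by omega
        rw [h5]
        omega
      · have h5 : 2 ≤ ((k : ℤ) - k') := by omega
        nlinarith [sq_nonneg ((2 * i + k % 2 : ℕ) - (2 * i' + k' % 2 : ℕ) : ℤ)]
  have key' : (4 : ℝ) ≤ (((2 * i + k % 2 : ℕ) : ℝ) - ((2 * i' + k' % 2 : ℕ) : ℝ)) ^ 2 +
      3 * ((k : ℝ) - k') ^ 2 := by
    exact_mod_cast key
  rw [EuclideanSpace.dist_eq]
  apply Real.le_sqrt_of_sq_le
  rw [Fin.sum_univ_two, Real.dist_eq, Real.dist_eq, sq_abs, sq_abs]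
  have e0 : (pt k i).ofLp 0 - (pt k' i').ofLp 0 =
      ((2 * i + k % 2 : ℕ) : ℝ) - ((2 * i' + k' % 2 : ℕ) : ℝ) := by
    simp [pt]
  have e1 : (pt k i).ofLp 1 - (pt k' i').ofLp 1 = √3 * ((k : ℝ) - k') := by
    simp [pt]
    ring
  rw [e0, e1, mul_pow, h3]
  linarith

theorem fits_rows (s : ℝ) (hs : 2 ≤ s) (n : ℕ)
    (hn : n ≤ ∑ k ∈ Finset.range (⌊(s - 2) / √3⌋₊ + 1), rowCount ⌊s - 2⌋₊ k) : Fits n s := by
  set l := ⌊(s - 2) / √3⌋₊ with hl
  set m := ⌊s - 2⌋₊ with hm
  have h3 : 0 < √3 := by positivity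
  have hl' : (l : ℝ) * √3 ≤ s - 2 := by
    rw [← le_div_iff₀ h3]
    exact Nat.floor_le (by apply div_nonneg <;> linarith)
  have hm' : (m : ℝ) ≤ s - 2 := Nat.floor_le (by linarith)
  apply fits_mono_n hn
  rw [fits_iff]
  refine ⟨by linarith, ?_⟩
  have hcard : Fintype.card (Σ k : Fin (l + 1), Fin (rowCount m k)) =
      ∑ k ∈ Finset.range (l + 1), rowCount m k := by
    rw [Fintype.card_sigma]
    simp only [Fintype.card_fin]
    exact Fin.sum_univ_eq_sum_range (fun k => rowCount m k) (l + 1)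
  let e := (Fintype.equivFinOfCardEq hcard).symm
  have hin : ∀ x : (Σ k : Fin (l + 1), Fin (rowCount m k)), ∀ j : Fin 2,
      1 ≤ (pt x.1 x.2).ofLp j ∧ (pt x.1 x.2).ofLp j ≤ s - 1 := by
    rintro ⟨⟨k, hk⟩, ⟨r, hr⟩⟩
    simp only at hr ⊢
    have hk' : (k : ℝ) ≤ l := by exact_mod_cast Nat.lt_succ_iff.1 hk
    have hr' : 2 * r + k % 2 ≤ m := by
      unfold rowCount at hr
      split_ifs at hr with h1 <;> omega
    have hr2 : ((2 * r + k % 2 : ℕ) : ℝ) ≤ m := by exact_mod_cast hr'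
    have h0 : (0 : ℝ) ≤ ((2 * r + k % 2 : ℕ) : ℝ) := Nat.cast_nonneg _
    have h0' : (0 : ℝ) ≤ (k : ℝ) := Nat.cast_nonneg _
    have hk2 : √3 * k ≤ l * √3 := by
      rw [mul_comm]
      exact mul_le_mul_of_nonneg_right hk' h3.le
    have hk3 : 0 ≤ √3 * k := by positivity
    intro j
    fin_cases j
    · change 1 ≤ 1 + ((2 * r + k % 2 : ℕ) : ℝ) ∧ 1 + ((2 * r + k % 2 : ℕ) : ℝ) ≤ s - 1
      constructor <;> linarith
    · change 1 ≤ 1 + √3 * k ∧ 1 + √3 * k ≤ s - 1
      constructor <;> linarith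
  have hsep : ∀ x y : (Σ k : Fin (l + 1), Fin (rowCount m k)), x ≠ y →
      2 ≤ dist (pt x.1 x.2) (pt y.1 y.2) := by
    rintro ⟨⟨k, hk⟩, ⟨r, hr⟩⟩ ⟨⟨k', hk'⟩, ⟨r', hr'⟩⟩ hxy
    apply dist_pt
    intro h
    apply hxy
    have h1 := congrArg Prod.fst h
    have h2 := congrArg Prod.snd h
    simp only at h1 h2
    subst h1 h2
    rfl
  exact ⟨fun i => pt (e i).1 (e i).2, fun i => hin (e i), fun i j hij =>
    hsep (e i) (e j) (fun h => hij (e.injective h))⟩

theorem rows_large (s : ℝ) (hs : 2 ≤ s) :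
    (s - 2) ^ 2 < √12 * ((∑ k ∈ Finset.range (⌊(s - 2) / √3⌋₊ + 1), rowCount ⌊s - 2⌋₊ k : ℕ) : ℝ) := by
  set l := ⌊(s - 2) / √3⌋₊ with hl
  set m := ⌊s - 2⌋₊ with hm
  have h3 : 0 < √3 := by positivity
  have h12 : √12 = 2 * √3 := by
    rw [show (12 : ℝ) = 2 ^ 2 * 3 by norm_num, Real.sqrt_mul (by norm_num), Real.sqrt_sq (by norm_num)]
  have h1 : (s - 2) < √3 * (l + 1) := by
    have := Nat.lt_floor_add_one ((s - 2) / √3)
    rw [div_lt_iff₀ h3] at this
    linarith
  have h2 : (s - 2) < m + 1 := Nat.lt_floor_add_one (s - 2)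
  have h4 : (((l + 1) * (m + 1) : ℕ) : ℝ) ≤
      ((2 * ∑ k ∈ Finset.range (l + 1), rowCount m k : ℕ) : ℝ) := by
    exact_mod_cast (sum_rows m l).1
  rw [h12]
  push_cast at h4
  have h5 : (s - 2) ^ 2 < √3 * (l + 1) * (m + 1) := by
    have h6 : (0 : ℝ) ≤ s - 2 := by linarith
    nlinarith
  calc (s - 2) ^ 2 < √3 * (l + 1) * (m + 1) := h5
    _ = √3 * ((l + 1) * (m + 1)) := by ring
    _ ≤ √3 * (2 * ((∑ k ∈ Finset.range (l + 1), rowCount m k : ℕ) : ℝ)) := by
        apply mul_le_mul_of_nonneg_left _ h3.le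
        push_cast
        exact h4
    _ = _ := by ring

/-! ### the minimum exists -/

theorem fits_two_le {n : ℕ} (hn : 1 ≤ n) {s : ℝ} (h : Fits n s) : 2 ≤ s := by
  rw [fits_iff] at h
  obtain ⟨-, c, h1, -⟩ := h
  have := h1 ⟨0, hn⟩ 0
  linarith [this.1, this.2]

theorem exists_fits (n : ℕ) : ∃ s, 2 ≤ s ∧ Fits n s := by
  refine ⟨2 + √12 * (n + 1), by have : 0 ≤ √12 * ((n : ℝ) + 1) := by positivity
                                linarith, ?_⟩
  have hs : (2 : ℝ) ≤ 2 + √12 * (n + 1) := by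
    have : 0 ≤ √12 * ((n : ℝ) + 1) := by positivity
    linarith
  apply fits_rows _ hs
  have h1 := rows_large _ hs
  have h12 : 1 ≤ √12 := by
    rw [Real.one_le_sqrt]
    norm_num
  set N := ∑ k ∈ Finset.range (⌊(2 + √12 * (↑n + 1) - 2) / √3⌋₊ + 1),
    rowCount ⌊2 + √12 * ((n : ℝ) + 1) - 2⌋₊ k with hN
  have h2 : (2 + √12 * ((n : ℝ) + 1) - 2) ^ 2 = √12 * (√12 * (n + 1) ^ 2) := by ring
  rw [h2] at h1
  have h3 : √12 * ((n : ℝ) + 1) ^ 2 < N := lt_of_mul_lt_mul_left h1 (by positivity)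
  have h4 : (n : ℝ) < N := by
    have h5 : (0 : ℝ) ≤ n := Nat.cast_nonneg n
    have h6 : ((n : ℝ) + 1) ^ 2 ≤ √12 * ((n : ℝ) + 1) ^ 2 := by
      nlinarith [sq_nonneg ((n : ℝ) + 1)]
    nlinarith
  exact_mod_cast h4.le

theorem isLeast_side {n : ℕ} (hn : 1 ≤ n) : IsLeast {s | Fits n s} (side n) := by
  obtain ⟨M, hM2, hM⟩ := exists_fits n
  -- the compact set of feasible pairs
  let T : (Fin n → Fin 2 → ℝ) → (Fin n → Plane) := fun c i => WithLp.toLp 2 (c i)
  have hT : Continuous T := by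
    apply continuous_pi
    intro i
    exact (PiLp.continuous_toLp 2 _).comp (continuous_apply i)
  let A : Set (ℝ × (Fin n → Fin 2 → ℝ)) := ⋂ i, ⋂ k, {p | p.2 i k ≤ p.1 - 1}
  let B : Set (ℝ × (Fin n → Fin 2 → ℝ)) :=
    ⋂ i, ⋂ j, ⋂ (_ : i ≠ j), {p | 2 ≤ dist (T p.2 i) (T p.2 j)}
  have hAm : ∀ p, p ∈ A ↔ ∀ i k, p.2 i k ≤ p.1 - 1 := by
    intro p
    simp only [A, mem_iInter, mem_ofPred_eq]
  have hBm : ∀ p, p ∈ B ↔ ∀ i j, i ≠ j → 2 ≤ dist (T p.2 i) (T p.2 j) := by
    intro p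
    simp only [B, mem_iInter, mem_ofPred_eq]
  let K : Set (ℝ × (Fin n → Fin 2 → ℝ)) :=
    (Icc 2 M ×ˢ Icc (fun _ _ => 1) (fun _ _ => M - 1)) ∩ (A ∩ B)
  have hK : IsCompact K := by
    apply (isCompact_Icc.prod isCompact_Icc).inter_right
    apply IsClosed.inter
    · refine isClosed_iInter fun i => isClosed_iInter fun k => isClosed_le ?_ ?_
      · exact (continuous_apply k).comp ((continuous_apply i).comp continuous_snd)
      · exact continuous_fst.sub continuous_const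
    · refine isClosed_iInter fun i => isClosed_iInter fun j => isClosed_iInter fun _ =>
        isClosed_le continuous_const ?_
      exact Continuous.dist ((continuous_apply i).comp (hT.comp continuous_snd))
        ((continuous_apply j).comp (hT.comp continuous_snd))
  have hmem : ∀ s, Fits n s → s ≤ M → s ∈ Prod.fst '' K := by
    intro s hs hsM
    have h2 := fits_two_le hn hs
    rw [fits_iff] at hs
    obtain ⟨-, c, h3, h4⟩ := hs
    refine ⟨(s, fun i => (c i).ofLp), ⟨⟨⟨h2, hsM⟩, ⟨fun i k => (h3 i k).1, fun i k => ?_⟩⟩,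
      (hAm _).2 fun i k => (h3 i k).2, (hBm _).2 fun i j hij => h4 i j hij⟩, rfl⟩
    have := (h3 i k).2
    show (c i).ofLp k ≤ M - 1
    linarith
  have hmem' : ∀ s, s ∈ Prod.fst '' K → Fits n s := by
    rintro _ ⟨⟨s, c⟩, ⟨⟨⟨h1, -⟩, ⟨h2, -⟩⟩, h3, h4⟩, rfl⟩
    rw [fits_iff]
    rw [hAm] at h3
    rw [hBm] at h4
    refine ⟨by simp only at h1 ⊢; linarith, T c, fun i k => ⟨h2 i k, h3 i k⟩, h4⟩
  obtain ⟨s₀, hs₀, hmin⟩ := (hK.image continuous_fst).exists_isLeast ⟨M, hmem M hM le_rfl⟩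
  have hL : IsLeast {s | Fits n s} s₀ := by
    refine ⟨hmem' _ hs₀, fun s hs => ?_⟩
    rcases le_total s M with h | h
    · exact hmin (hmem s hs h)
    · exact (hmin (hmem M hM le_rfl)).trans h
  have : side n = s₀ := hL.csInf_eq
  rw [this]
  exact hL

theorem side_bound {n : ℕ} (hn : 1 ≤ n) : (side n - 2) ^ 2 + √12 ≤ √12 * n := by
  have hL := isLeast_side hn
  have h2 : 2 ≤ side n := fits_two_le hn hL.1
  have h12 : 0 < √12 := by positivity
  have key : ∀ s, 2 ≤ s → s < side n → (s - 2) ^ 2 ≤ √12 * ((n : ℝ) - 1) := by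
    intro s hs hs2
    have h1 := rows_large s hs
    have h3 : ¬ n ≤ ∑ k ∈ Finset.range (⌊(s - 2) / √3⌋₊ + 1), rowCount ⌊s - 2⌋₊ k := by
      intro h4
      have := hL.2 (fits_rows s hs n h4)
      linarith
    push Not at h3
    have h4 : ((∑ k ∈ Finset.range (⌊(s - 2) / √3⌋₊ + 1), rowCount ⌊s - 2⌋₊ k : ℕ) : ℝ) + 1 ≤ n := by
      exact_mod_cast h3
    refine h1.le.trans ?_
    apply mul_le_mul_of_nonneg_left _ h12.le
    linarith
  have key2 : (side n - 2) ^ 2 ≤ √12 * ((n : ℝ) - 1) := by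
    rcases h2.eq_or_lt with h | h
    · rw [← h]
      have : (1 : ℝ) ≤ n := by exact_mod_cast hn
      have h5 : 0 ≤ √12 * ((n : ℝ) - 1) := mul_nonneg h12.le (by linarith)
      simpa using h5
    · by_contra hcon
      push Not at hcon
      -- continuity
      have hc : ContinuousAt (fun s : ℝ => (s - 2) ^ 2) (side n) := by fun_prop
      have h6 := hc.eventually (lt_mem_nhds hcon)
      obtain ⟨ε, hε, h7⟩ := Metric.eventually_nhds_iff.1 h6
      set s := max 2 (side n - ε / 2) with hs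
      have h8 : s < side n := max_lt h (by linarith)
      have h9 : dist s (side n) < ε := by
        rw [Real.dist_eq, abs_lt]
        constructor
        · have := le_max_right 2 (side n - ε / 2)
          linarith
        · linarith
      have h10 := h7 h9
      have h11 := key s (le_max_left _ _) h8
      linarith
  linarith

/-- Let `s_n` (`side n`) be the infimum of the sides of the squares which contain `n` nonoverlapping
unit discs. For every `n ≥ 1` it is a minimum, `√12 n ≥ (s_n - 2) ^ 2 + √12 > F(s_n)`; so the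
equality `√12 n = F(s_n)` holds for no `n ≥ 1`, in particular it does not hold for infinitely many
`n`. -/
theorem result :
    (∀ n : ℕ, 1 ≤ n → IsLeast {s | Fits n s} (side n) ∧
      (side n - 2) ^ 2 + √12 ≤ √12 * n ∧ F (side n) < √12 * n) ∧
    ¬ {n : ℕ | 1 ≤ n ∧ √12 * n = F (side n)}.Infinite := by
  have main : ∀ n : ℕ, 1 ≤ n → IsLeast {s | Fits n s} (side n) ∧
      (side n - 2) ^ 2 + √12 ≤ √12 * n ∧ F (side n) < √12 * n := by
    intro n hn
    have hL := isLeast_side hn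
    have h2 : 2 ≤ side n := fits_two_le hn hL.1
    have h12 : 0 < √12 := by positivity
    have hb := side_bound hn
    refine ⟨hL, hb, ?_⟩
    have h3 : 1 ≤ √3 := by
      rw [Real.one_le_sqrt]
      norm_num
    have h4 : F (side n) ≤ (side n - 2) ^ 2 := by
      have h5 : F (side n) = (side n - 2) ^ 2 - (√3 - 1) * (side n - 2) := by
        unfold F
        ring
      rw [h5]
      have : 0 ≤ (√3 - 1) * (side n - 2) := mul_nonneg (by linarith) (by linarith)
      linarith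
    linarith
  refine ⟨main, ?_⟩
  rw [Set.not_infinite]
  have : {n : ℕ | 1 ≤ n ∧ √12 * n = F (side n)} = ∅ := by
    rw [Set.eq_empty_iff_forall_notMem]
    rintro n ⟨hn, h⟩
    have := (main n hn).2.2
    linarith
  rw [this]
  exact Set.finite_empty

end Pool.Agent.Results.MP_77b5a8_co.NoEqualityH72
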